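import Pool.Agent.H30.FA.TA

/-! Row SEL of board fas (MP_6a7a6f_gt): selection of four points. -/

set_option autoImplicit false

open Pool.Agent.H30.FA

namespace Pool.Agent.H60.FA

section

variable {J : Type} [Fintype J]

theorem sum4 (f g h l : J → ℝ) : ∑ i, ∑ i', ∑ j, ∑ j', f i * g i' * h j * l j' =
    (∑ i, f i) * (∑ i, g i) * (∑ i, h i) * (∑ i, l i) := by
  simp only [← Finset.mul_sum, ← Finset.sum_mul]

theorem sumA (z : J → J → ℝ) (t : J → ℝ) (ht : ∑ j, t j = 1) :
    ∑ i, ∑ i', ∑ j, ∑ j', z i i' * t j * t j' = ∑ i, ∑ k, z i k := by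
  simp only [← Finset.mul_sum, ← Finset.sum_mul, ht, mul_one]

theorem sumB (z : J → J → ℝ) (t : J → ℝ) (ht : ∑ j, t j = 1) :
    ∑ i, ∑ i', ∑ j, ∑ j', t i' * t j * z i j' = ∑ i, ∑ k, z i k := by
  simp only [← Finset.mul_sum, ← Finset.sum_mul, ht, mul_one, one_mul]

theorem sumC (z : J → J → ℝ) (t : J → ℝ) (ht : ∑ j, t j = 1) :
    ∑ i, ∑ i', ∑ j, ∑ j', t i * t i' * z j j' = ∑ i, ∑ k, z i k := by
  simp only [← Finset.mul_sum, ← Finset.sum_mul, ht, mul_one, one_mul]

end

theorem pf_SEL : T_SEL := by
  classical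
  intro J _ t R B M Z p b b' hW hp hR hB hZ hM hlt
  by_contra hno
  push Not at hno
  have ht0 : ∀ j, 0 ≤ t j := hW.1
  have ht1 : ∑ j, t j = 1 := hW.2
  obtain ⟨rr, hrr⟩ : ∃ rr : J → ℝ, ∀ j, rr j = if R j then t j else 0 := ⟨_, fun _ => rfl⟩
  obtain ⟨bb, hbb⟩ : ∃ bb : J → ℝ, ∀ j, bb j = if B j then t j else 0 := ⟨_, fun _ => rfl⟩
  obtain ⟨mm, hmm⟩ : ∃ mm : J → ℝ, ∀ j, mm j = if M j then t j else 0 := ⟨_, fun _ => rfl⟩
  obtain ⟨zz, hzz⟩ : ∃ zz : J → J → ℝ, ∀ i k, zz i k = if Z i k then t i * t k else 0 :=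
    ⟨_, fun _ _ => rfl⟩
  have hR' : p ≤ ∑ j, rr j := by
    rw [Finset.sum_congr rfl fun j _ => hrr j]
    exact hR
  have hB' : p ≤ ∑ j, bb j := by
    rw [Finset.sum_congr rfl fun j _ => hbb j]
    exact hB
  have hM' : ∑ j, mm j ≤ b' := by
    rw [Finset.sum_congr rfl fun j _ => hmm j]
    exact hM
  have hZ' : ∑ i, ∑ k, zz i k ≤ b := by
    rw [Finset.sum_congr rfl fun i _ => Finset.sum_congr rfl fun k _ => hzz i k]
    exact hZ
  have m0 : ∀ j, 0 ≤ mm j := fun j => by rw [hmm]; split_ifs; exacts [ht0 j, le_rfl]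
  have z0 : ∀ i k, 0 ≤ zz i k := fun i k => by
    rw [hzz]; split_ifs; exacts [mul_nonneg (ht0 i) (ht0 k), le_rfl]
  have hpt : ∀ i i' j j', rr i * rr i' * bb j * bb j' ≤ zz i i' * t j * t j' +
      t i' * t j * zz i j' + t i * t i' * zz j j' + t i * mm i' * t j * t j' +
      t i * t i' * t j * mm j' := by
    intro i i' j j'
    have n1 : 0 ≤ zz i i' * t j * t j' := mul_nonneg (mul_nonneg (z0 _ _) (ht0 _)) (ht0 _)
    have n2 : 0 ≤ t i' * t j * zz i j' := mul_nonneg (mul_nonneg (ht0 _) (ht0 _)) (z0 _ _)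
    have n3 : 0 ≤ t i * t i' * zz j j' := mul_nonneg (mul_nonneg (ht0 _) (ht0 _)) (z0 _ _)
    have n4 : 0 ≤ t i * mm i' * t j * t j' :=
      mul_nonneg (mul_nonneg (mul_nonneg (ht0 _) (m0 _)) (ht0 _)) (ht0 _)
    have n5 : 0 ≤ t i * t i' * t j * mm j' :=
      mul_nonneg (mul_nonneg (mul_nonneg (ht0 _) (ht0 _)) (ht0 _)) (m0 _)
    by_cases h1 : R i ∧ t i ≠ 0
    · by_cases h2 : R i' ∧ t i' ≠ 0
      · by_cases h3 : B j ∧ t j ≠ 0
        · by_cases h4 : B j' ∧ t j' ≠ 0
          · have e : rr i * rr i' * bb j * bb j' = t i * t i' * t j * t j' := by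
              rw [hrr, hrr, hbb, hbb, if_pos h1.1, if_pos h2.1, if_pos h3.1, if_pos h4.1]
            rw [e]
            by_cases c1 : Z i i'
            · have : zz i i' * t j * t j' = t i * t i' * t j * t j' := by
                rw [hzz, if_pos c1]
              linarith
            · by_cases c2 : Z i j'
              · have : t i' * t j * zz i j' = t i * t i' * t j * t j' := by
                  rw [hzz, if_pos c2]; ring
                linarith
              · by_cases c3 : Z j j'
                · have : t i * t i' * zz j j' = t i * t i' * t j * t j' := by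
                    rw [hzz, if_pos c3]; ring
                  linarith
                · by_cases c4 : M i'
                  · have : t i * mm i' * t j * t j' = t i * t i' * t j * t j' := by
                      rw [hmm, if_pos c4]
                    linarith
                  · have c5 : M j' := hno i i' j j' h1.2 h2.2 h3.2 h4.2 h1.1 h2.1 h3.1 h4.1
                      c1 c2 c3 c4
                    have : t i * t i' * t j * mm j' = t i * t i' * t j * t j' := by
                      rw [hmm, if_pos c5]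
                    linarith
          · have e : bb j' = 0 := by
              rw [hbb]
              split_ifs with h
              · by_contra h5
                exact h4 ⟨h, h5⟩
              · rfl
            rw [e, mul_zero]
            linarith
        · have e : bb j = 0 := by
            rw [hbb]
            split_ifs with h
            · by_contra h5
              exact h3 ⟨h, h5⟩
            · rfl
          rw [e, mul_zero, zero_mul]
          linarith
      · have e : rr i' = 0 := by
          rw [hrr]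
          split_ifs with h
          · by_contra h5
            exact h2 ⟨h, h5⟩
          · rfl
        rw [e, mul_zero, zero_mul, zero_mul]
        linarith
    · have e : rr i = 0 := by
        rw [hrr]
        split_ifs with h
        · by_contra h5
          exact h1 ⟨h, h5⟩
        · rfl
      rw [e, zero_mul, zero_mul, zero_mul]
      linarith
  have hs := Finset.sum_le_sum fun i (_ : i ∈ (Finset.univ : Finset J)) =>
    Finset.sum_le_sum fun i' (_ : i' ∈ (Finset.univ : Finset J)) =>
    Finset.sum_le_sum fun j (_ : j ∈ (Finset.univ : Finset J)) =>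
    Finset.sum_le_sum fun j' (_ : j' ∈ (Finset.univ : Finset J)) => hpt i i' j j'
  simp only [Finset.sum_add_distrib] at hs
  rw [sum4, sumA zz t ht1, sumB zz t ht1, sumC zz t ht1, sum4, sum4, ht1] at hs
  have hp2 : p ^ 4 ≤ (∑ i, rr i) * (∑ i, rr i) * (∑ i, bb i) * ∑ i, bb i := by
    have e : p ^ 4 = p * p * p * p := by ring
    rw [e]
    have q1 : p * p ≤ (∑ i, rr i) * (∑ i, rr i) := mul_le_mul hR' hR' hp (hp.trans hR')
    have q2 : p * p * p ≤ (∑ i, rr i) * (∑ i, rr i) * (∑ i, bb i) :=
      mul_le_mul q1 hB' hp ((mul_nonneg hp hp).trans q1)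
    exact mul_le_mul q2 hB' hp ((mul_nonneg (mul_nonneg hp hp) hp).trans q2)
  linarith

end Pool.Agent.H60.FA
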