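import Pool.Agent.H30.FA.TC

/-! Row ITW of board fas (MP_6a7a6f_gt): integrality of products on cycles. -/

set_option autoImplicit false

noncomputable section

open Topology

namespace Pool.Agent.H60.FA

open Pool.Agent.H58.FL Pool.Agent.H59 Pool.Agent.H48.FR Pool.Agent.H30.FA

theorem itw_split (hLOW : T_LOW) {X : Type} (L L' : List (X → X → X → ℝ))
    (g h e : X → X → X → ℝ) (hg : ∀ a b c, g a b c = h a b c + e a b c) (x : ℕ → X) :
    Pool.Agent.H58.FL.PL (L ++ g :: L') x = Pool.Agent.H58.FL.PL (L ++ h :: L') x +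
      1 * Pool.Agent.H58.FL.PL (L ++ e :: L') x := by
  have h1 := (hLOW X).2.2.2.2.2.2.2.2.2.2
  rw [h1, h1, h1]
  change Pool.Agent.H58.FL.PL L x * (g _ _ _ * Pool.Agent.H58.FL.PL L' _) =
    Pool.Agent.H58.FL.PL L x * (h _ _ _ * Pool.Agent.H58.FL.PL L' _) +
    1 * (Pool.Agent.H58.FL.PL L x * (e _ _ _ * Pool.Agent.H58.FL.PL L' _))
  rw [hg]
  ring

theorem itw_int {X : Type} (S : Set X) (L : List (X → X → X → ℝ))
    (hL : ∀ g ∈ L, ∀ x ∈ S, ∀ y ∈ S, ∀ z ∈ S, ∃ j : ℤ, g x y z = j) :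
    ∀ x : ℕ → X, (∀ i, x i ∈ S) → ∃ r : ℤ, Pool.Agent.H58.FL.PL L x = r := by
  induction L with
  | nil =>
    intro x _
    refine ⟨1, ?_⟩
    change (1 : ℝ) = ((1 : ℤ) : ℝ)
    rw [Int.cast_one]
  | cons g L ih =>
    intro x hx
    obtain ⟨r, hr⟩ := hL g List.mem_cons_self (x 0) (hx 0) (x 1) (hx 1) (x 2) (hx 2)
    obtain ⟨s, hs⟩ := ih (fun g hg => hL g (List.mem_cons_of_mem _ hg)) (sh 2 x) (fun i => hx _)
    refine ⟨r * s, ?_⟩
    change g (x 0) (x 1) (x 2) * Pool.Agent.H58.FL.PL L (sh 2 x) = _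
    rw [hr, hs]
    push_cast
    rfl

theorem itw_core (hZA : T_ZA) (hEVL : T_EVL) (hLOW : T_LOW) (X : Type) (K : Set (Set X))
    (hK : Down K) (n : ℕ) (z : LL (2 * n + 1) X) (hz : On K z) (hbz : bdL (2 * n) X z = 0)
    (L2 : List (X → X → X → ℝ)) : ∀ L1 : List (X → X → X → ℝ),
    (∀ g ∈ L1, Cl2 K g ∧ ∀ S ∈ K, ∀ x ∈ S, ∀ y ∈ S, ∀ z ∈ S, ∃ j : ℤ, g x y z = j) →
    (∀ g ∈ L2, Cl2 K g ∧ ∃ θ : X → X → ℝ, ∀ S ∈ K, ∀ x ∈ S, ∀ y ∈ S, ∀ z ∈ S,
      ∃ j : ℤ, g x y z - d1 θ x y z = j) → L1.length + L2.length = n →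
    ∃ N : ℤ, ev (2 * n) (Pool.Agent.H58.FL.PL (L1 ++ L2)) z = N := by
  induction L2 with
  | nil =>
    intro L1 h1 _ _
    rw [List.append_nil]
    refine (hEVL X (2 * n)).2.2.2.2.2.1 _ _ (fun t ht => ?_)
    exact itw_int (Set.range t) L1 (fun g hg => (h1 g hg).2 _ (hz t ht)) (ex t)
      (fun i => ⟨_, rfl⟩)
  | cons g L2 ih =>
    intro L1 h1 h2 hlen
    obtain ⟨hg, θ, hθ⟩ := h2 g List.mem_cons_self
    obtain ⟨g', hg'⟩ : ∃ g' : X → X → X → ℝ, ∀ a b c, g' a b c = g a b c - d1 θ a b c :=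
      ⟨fun a b c => g a b c - d1 θ a b c, fun _ _ _ => rfl⟩
    have hcl : Cl2 K g' := by
      intro S hS x hx y hy u hu w hw
      have e1 := hg S hS x hx y hy u hu w hw
      have e2 := (hLOW X).2.2.2.2.2.2.2.2.2.1 θ x y u w
      have e3 : d2 g' x y u w = d2 g x y u w - d2 (fun a b c => d1 θ a b c) x y u w := by
        unfold d2
        rw [hg', hg', hg', hg']
        ring
      rw [e3, e1, e2, sub_zero]
    have e4 : (Pool.Agent.H58.FL.PL (L1 ++ g :: L2) : Coc X) = fun x =>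
        Pool.Agent.H58.FL.PL (L1 ++ g' :: L2) x +
          1 * Pool.Agent.H58.FL.PL (L1 ++ d1 θ :: L2) x := by
      funext x
      refine itw_split hLOW _ _ _ _ _ (fun a b c => ?_) x
      rw [hg']
      ring
    rw [List.length_cons] at hlen
    rw [e4, (hEVL X (2 * n)).2.2.1]
    rw [hZA X K hK n L1 L2 θ (by omega) (fun g hg => (h1 g hg).1)
      (fun g hg => (h2 g (List.mem_cons_of_mem _ hg)).1) z hz hbz, mul_zero, add_zero]
    have e5 : L1 ++ g' :: L2 = (L1 ++ [g']) ++ L2 := by simp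
    rw [e5]
    refine ih (L1 ++ [g']) ?_ (fun g hg => h2 g (List.mem_cons_of_mem _ hg)) ?_
    · intro f hf
      rw [List.mem_append, List.mem_singleton] at hf
      rcases hf with hf | hf
      · exact h1 f hf
      · rw [hf]
        refine ⟨hcl, fun S hS x hx y hy w hw => ?_⟩
        rw [hg']
        exact hθ S hS x hx y hy w hw
    · rw [List.length_append, List.length_singleton]
      omega

theorem pf_ITW (hZA : T_ZA) (hEVL : T_EVL) (hLOW : T_LOW) : T_ITW := by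
  intro X K hK L hL n hn z hz hbz
  have h := itw_core hZA hEVL hLOW X K hK n z hz hbz L [] (fun g hg => absurd hg (by simp)) hL
    (by rw [List.length_nil, zero_add, hn])
  rwa [List.nil_append] at h

end Pool.Agent.H60.FA
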