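import Pool.Agent.H30.FA.TC

/-! Row SPL of board fas (MP_6a7a6f_gt): splitting of a chain. -/

set_option autoImplicit false

noncomputable section

open Topology

namespace Pool.Agent.H60.FA

open Pool.Agent.H58.FL Pool.Agent.H59 Pool.Agent.H48.FR Pool.Agent.H30.FA

open Classical in
private theorem bdL_single_apply {X : Type} (k : ℕ) (v : Fin (k + 1) → X) (r : ℤ)
    (t' : Fin k → X) : (bdL k X (Finsupp.single v r)) t' =
      r * ∑ i : Fin (k + 1), (-1 : ℤ) ^ (i : ℕ) * (if v ∘ i.succAbove = t' then 1 else 0) := by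
  rw [bdL, altbd_single, Finsupp.smul_apply, Finsupp.finsetSum_apply, smul_eq_mul]
  congr 1
  refine Finset.sum_congr rfl fun i _ => ?_
  rw [Finsupp.smul_apply, Finsupp.single_apply, smul_eq_mul]

open Classical in
private theorem bdL_apply {X : Type} (k : ℕ) (b : LL (k + 1) X) (t' : Fin k → X) :
    (bdL k X b) t' = ∑ t ∈ b.support, b t *
      ∑ i : Fin (k + 1), (-1 : ℤ) ^ (i : ℕ) * (if t ∘ i.succAbove = t' then 1 else 0) := by
  conv_lhs => rw [← Finsupp.sum_single b]
  rw [Finsupp.sum, map_sum, Finsupp.finsetSum_apply]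
  exact Finset.sum_congr rfl fun t _ => bdL_single_apply k t (b t) t'

private theorem bdL_support {X : Type} (k : ℕ) (c : LL (k + 1) X) (t : Fin k → X)
    (ht : t ∈ (bdL k X c).support) : ∃ s ∈ c.support, ∃ i : Fin (k + 1), t = s ∘ i.succAbove := by
  classical
  by_contra hcon
  push Not at hcon
  rw [Finsupp.mem_support_iff] at ht
  apply ht
  rw [bdL_apply]
  refine Finset.sum_eq_zero fun s hs => ?_
  rw [Finset.sum_eq_zero fun i _ => ?_, mul_zero]
  rw [if_neg (fun h => hcon s hs i h.symm), mul_zero]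

theorem on_bdL {X : Type} {K : Set (Set X)} (hK : Down K) (k : ℕ) (c : LL (k + 1) X)
    (hc : On K c) : On K (bdL k X c) := by
  intro t ht
  obtain ⟨s, hs, i, rfl⟩ := bdL_support k c t ht
  exact hK _ (hc s hs) _ (Set.range_comp_subset_range _ _)

theorem pf_SPL : T_SPL := by
  classical
  intro X K₁ K₂ h₁ h₂ k b hb hbd
  obtain ⟨b₂, hb₂⟩ : ∃ b₂ : LL (k + 2) X, b₂ = b.filter (fun t => Set.range t ∈ K₂) := ⟨_, rfl⟩
  obtain ⟨b₁, hb₁⟩ : ∃ b₁ : LL (k + 2) X, b₁ = b.filter (fun t => ¬ Set.range t ∈ K₂) := ⟨_, rfl⟩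
  have hsum : b = b₁ + b₂ := by
    rw [hb₁, hb₂]
    exact ((add_comm _ _).trans (Finsupp.filter_add_filter_not b _)).symm
  have o1 : On K₁ b₁ := by
    intro t ht
    rw [hb₁, Finsupp.support_filter, Finset.mem_filter] at ht
    rcases hb t ht.1 with h | h
    · exact h
    · exact absurd h ht.2
  have o2 : On K₂ b₂ := by
    intro t ht
    rw [hb₂, Finsupp.support_filter, Finset.mem_filter] at ht
    exact ht.2
  refine ⟨b₁, b₂, hsum, o1, o2, ?_⟩
  have o3 := on_bdL h₂ (k + 1) b₂ o2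
  have o4 := on_bdL h₁ (k + 1) b₁ o1
  intro t ht
  refine ⟨?_, o3 t ht⟩
  by_contra hcon
  have h5 : (bdL (k + 1) X b₁) t = 0 := by
    by_contra h6
    exact hcon (o4 t (Finsupp.mem_support_iff.2 h6))
  have h6 : (bdL (k + 1) X b) t = (bdL (k + 1) X b₂) t := by
    rw [hsum, map_add, Finsupp.add_apply, h5, zero_add]
  have h7 : t ∈ (bdL (k + 1) X b).support := by
    rw [Finsupp.mem_support_iff, h6]
    exact Finsupp.mem_support_iff.1 ht
  exact (hbd t h7).2 (o3 t ht)

end Pool.Agent.H60.FA
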